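import Pool.Agent.C33.Asymptotic
import Pool.Agent.LibPNT.PNT

set_option autoImplicit false

namespace Pool.Agent.Results.MP_5edfab_co.Asymptotic

open Filter Pool.Agent.C33

/-- primes in `((1 - ε) x, x]`, from the prime number theorem -/
lemma gap (ε : ℝ) (hε : 0 < ε) :
    ∃ x₀ : ℝ, ∀ x ≥ x₀, ∃ p : ℕ, p.Prime ∧ (1 - ε) * x < p ∧ (p : ℝ) ≤ x := by
  have h1 := Pool.Agent.LibPNT.eventually_exists_prime hε
  have h2 : Tendsto (fun x : ℝ => x / (1 + ε)) atTop atTop :=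
    tendsto_id.atTop_div_const (by linarith)
  have h3 := h2.eventually h1
  obtain ⟨x₀, hx₀⟩ := eventually_atTop.1 h3
  refine ⟨max x₀ 0, fun x hx => ?_⟩
  obtain ⟨p, hp, hp1, hp2⟩ := hx₀ x ((le_max_left _ _).trans hx)
  have hx0 : 0 ≤ x := (le_max_right _ _).trans hx
  refine ⟨p, hp, ?_, ?_⟩
  · have h4 : (1 - ε) * x ≤ x / (1 + ε) := by
      rw [le_div_iff₀ (by linarith)]
      nlinarith [mul_nonneg (sq_nonneg ε) hx0]
    linarith
  · have h5 : (1 + ε) * (x / (1 + ε)) = x := by field_simp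
    linarith

/-- The maximum size `F n` of a `C_3[3]`-set in `{1, ..., n}` satisfies `F n ~ n^(2/3)`. -/
theorem result : Tendsto (fun n : ℕ => (F n : ℝ) / (n : ℝ) ^ (2 / 3 : ℝ)) atTop (nhds 1) :=
  tendsto_of_gap gap

end Pool.Agent.Results.MP_5edfab_co.Asymptotic
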